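import Mathlib
import Pool.Agent.Helper56.TOF.Goals

/-!
# Packet TOF-SMO: smoothness of the time shift, jointly in the parameter
-/

set_option autoImplicit false

open Set Filter Topology MeasureTheory

open scoped ContDiff

namespace Pool.Agent.Helper33.TOF

open Pool.Agent.Helper56.RZ Pool.Agent.Helper30.CIR Pool.Agent.Helper56.TOF

theorem ee_contDiff (s : WithTop ℕ∞) : ContDiff ℝ s ee := by
  unfold ee
  apply ContDiff.cexp
  apply ContDiff.mul _ contDiff_const
  exact Complex.ofRealCLM.contDiff.comp (contDiff_const.mul contDiff_id)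

theorem norm_ee (t : ℝ) : ‖ee t‖ = 1 := by
  unfold ee
  exact Complex.norm_exp_ofReal_mul_I _

theorem norm_zz {K : ℕ} (B tau : E K → ℝ) (b0 : ℝ) (q r : ℕ) (al : ℝ) (x : E K) :
    ‖zz B tau b0 q r al x‖ ≤ cq q r := by
  unfold zz
  have hc : 0 ≤ cq q r := by unfold cq; positivity
  have h0 : 0 ≤ am B b0 x := Real.smoothTransition.nonneg _
  have h1 : am B b0 x ≤ 1 := Real.smoothTransition.le_one _
  rw [norm_mul, norm_ee, mul_one, Complex.norm_real, Real.norm_of_nonneg (mul_nonneg hc h0)]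
  exact mul_le_of_le_one_right hc h1

theorem gSMO : StmtSMO := by
  intro K s M A b B tau p b0 z0 Φ q r hs hbox hb0 hPF hq hcq
  rintro ⟨al, x⟩ ⟨hal, hx⟩
  have hal' : 0 < al := hal
  have hq0 : (0 : ℝ) < q := by exact_mod_cast hq
  have hq1 : (1 : ℝ) ≤ q := by exact_mod_cast hq
  have hBc : ContinuousWithinAt B M x := (hbox.Bsm.continuousOn) x hx
  have hsnd : Tendsto (Prod.snd : ℝ × E K → E K) (𝓝[Ioi 0 ×ˢ M] (al, x)) (𝓝[M] x) := by
    apply tendsto_nhdsWithin_of_tendsto_nhds_of_eventually_within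
    · exact (continuous_snd.tendsto (al, x)).mono_left nhdsWithin_le_nhds
    · filter_upwards [self_mem_nhdsWithin] with w hw using hw.2
  rcases lt_or_ge 0 (B x) with hB | hB
  · set T : Set (ℝ × E K) := Ioi 0 ×ˢ (M ∩ {y | 0 < B y}) with hT
    have hTmem : T ∈ 𝓝[Ioi 0 ×ˢ M] (al, x) := by
      have h1 : ∀ᶠ y in 𝓝[M] x, 0 < B y := hBc.eventually_const_lt hB
      filter_upwards [self_mem_nhdsWithin, hsnd.eventually h1] with w hw hw2
      exact ⟨hw.1, hw.2, hw2⟩
    have hmT : MapsTo (Prod.snd : ℝ × E K → E K) T (M ∩ {y | 0 < B y}) := fun w hw => hw.2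
    have hmM : MapsTo (Prod.snd : ℝ × E K → E K) T M := fun w hw => hw.2.1
    have htau : ContDiffOn ℝ s (fun v : ℝ × E K => tau v.2) T :=
      hbox.tsm.comp contDiff_snd.contDiffOn hmT
    have hBB : ContDiffOn ℝ s (fun v : ℝ × E K => B v.2) T :=
      hbox.Bsm.comp contDiff_snd.contDiffOn hmM
    have hst : ContDiff ℝ s Real.smoothTransition :=
      (Real.smoothTransition.contDiff (n := ⊤)).of_le hs
    have ham : ContDiffOn ℝ s (fun v : ℝ × E K => am B b0 v.2) T := by
      unfold am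
      exact hst.comp_contDiffOn ((hBB.div_const b0).sub contDiffOn_const)
    have hfst : ContDiffOn ℝ s (fun v : ℝ × E K => v.1) T := contDiff_fst.contDiffOn
    have hat : ContDiffOn ℝ s (fun v : ℝ × E K => v.1 * tau v.2) T := hfst.mul htau
    have hzz : ContDiffOn ℝ s (fun v : ℝ × E K => zz B tau b0 q r v.1 v.2) T := by
      unfold zz
      apply ContDiffOn.mul
      · exact Complex.ofRealCLM.contDiff.comp_contDiffOn (contDiffOn_const.mul ham)
      · exact (ee_contDiff s).comp_contDiffOn (contDiffOn_const.mul hat)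
    have hin : ContDiffOn ℝ s (fun v : ℝ × E K =>
        ((zz B tau b0 q r v.1 v.2, v.1 * tau v.2, 1 / (q : ℝ)) : ℂ × ℝ × ℝ)) T :=
      hzz.prodMk (hat.prodMk contDiffOn_const)
    have hmaps : MapsTo (fun v : ℝ × E K =>
        ((zz B tau b0 q r v.1 v.2, v.1 * tau v.2, 1 / (q : ℝ)) : ℂ × ℝ × ℝ)) T
        {v | ‖v.1‖ < z0 ∧ |v.2.2| < 2} := by
      intro w _
      refine ⟨(norm_zz B tau b0 q r w.1 w.2).trans_lt hcq, ?_⟩
      show |1 / (q : ℝ)| < 2
      rw [abs_of_pos (by positivity)]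
      have : 1 / (q : ℝ) ≤ 1 := by rw [div_le_one hq0]; exact hq1
      linarith
    have hΦ : ContDiffOn ℝ s (fun v : ℝ × E K =>
        Φ (zz B tau b0 q r v.1 v.2, v.1 * tau v.2, 1 / (q : ℝ))) T :=
      (hPF.smooth.of_le hs).comp hin hmaps
    have hth : ContDiffOn ℝ s (fun v : ℝ × E K => th Φ B tau b0 q r v.1 v.2) T := by
      unfold th
      apply hΦ.div (contDiffOn_const.mul hfst)
      intro w hw
      have : 0 < w.1 := hw.1
      positivity
    exact (hth (al, x) ⟨hal, hx, hB⟩).mono_of_mem_nhdsWithin hTmem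
  · have hzero : ∀ w : ℝ × E K, B w.2 < b0 → th Φ B tau b0 q r w.1 w.2 = 0 := by
      intro w hw
      have h1 : am B b0 w.2 = 0 := by
        unfold am
        apply Real.smoothTransition.zero_of_nonpos
        have : B w.2 / b0 < 1 := by rw [div_lt_one hb0]; exact hw
        linarith
      have h2 : zz B tau b0 q r w.1 w.2 = 0 := by
        unfold zz; rw [h1]; simp
      unfold th
      rw [h2, hPF.zero, zero_div]
    have h1 : ∀ᶠ y in 𝓝[M] x, B y < b0 := hBc.eventually_lt_const (hB.trans_lt hb0)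
    have h2 : (fun v : ℝ × E K => th Φ B tau b0 q r v.1 v.2) =ᶠ[𝓝[Ioi 0 ×ˢ M] (al, x)]
        fun _ => (0 : ℝ) := by
      filter_upwards [hsnd.eventually h1] with w hw using hzero w hw
    exact contDiffWithinAt_const.congr_of_eventuallyEq h2 (hzero (al, x) (hB.trans_lt hb0))

end Pool.Agent.Helper33.TOF
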